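import Pool.Agent.X256.CT.Basic
import Pool.Agent.Helper884.IC.Basic

/-!
# Irreducible characters: abelian images, complex conjugation, degree bounds
-/

open scoped BigOperators Classical
open Representation Pool.Agent.Helper884.IC

noncomputable section

namespace Pool.Agent.X256.CT

variable {G : Type} [Group G]

lemma scalar_of_comm {V : Type} [AddCommGroup V] [Module ℂ V] [FiniteDimensional ℂ V]
    (rho : Representation ℂ G V) [hirr : rho.IsIrreducible] (T : V →ₗ[ℂ] V)
    (hcomm : ∀ (h : G) (v : V), T (rho h v) = rho h (T v)) : ∃ c : ℂ, T = c • LinearMap.id := by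
  let S : IntertwiningMap rho rho := T.intertwiningMap_of_isIntertwiningMap rho rho hcomm
  obtain ⟨c, hc⟩ := (Representation.IsIrreducible.algebraMap_intertwiningMap_bijective_of_isAlgClosed
    (ρ := rho)).2 S
  refine ⟨c, ?_⟩
  ext v
  have := congrArg (fun R : IntertwiningMap rho rho => R v) hc
  have h2 : S v = T v := rfl
  rw [← h2]
  exact this.symm

variable [Fintype G]

/-- an irreducible representation with commuting image is one-dimensional -/
lemma comm_irr {V : Type} [AddCommGroup V] [Module ℂ V] [FiniteDimensional ℂ V]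
    (rho : Representation ℂ G V) (hirr : rho.IsIrreducible)
    (hcomm : ∀ x y : G, rho x * rho y = rho y * rho x) :
    rho.character 1 = 1 ∧ ∀ x y, rho.character (x * y) = rho.character x * rho.character y := by
  have hsc : ∀ x, ∃ c : ℂ, rho x = c • LinearMap.id := by
    intro x
    refine scalar_of_comm rho (rho x) ?_
    intro h v
    have := congrArg (fun R : V →ₗ[ℂ] V => R v) (hcomm x h)
    exact this
  choose c hc using hsc
  have hnt := Pool.Agent.Y63.AWC.irr_nontrivial rho hirr
  set d : ℂ := (Module.finrank ℂ V : ℂ) with hd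
  have hd0 : d ≠ 0 := by
    rw [hd]
    exact_mod_cast (Module.finrank_pos (R := ℂ) (M := V)).ne'
  have hch : ∀ x, rho.character x = c x * d := by
    intro x
    unfold Representation.character
    rw [hc x, map_smul, LinearMap.trace_id, smul_eq_mul]
  obtain ⟨v, hv⟩ := exists_ne (0 : V)
  have hc1 : c 1 = 1 := by
    have h1 := congrArg (fun R : V →ₗ[ℂ] V => R v) (hc 1)
    simp only [map_one, Module.End.one_apply, LinearMap.smul_apply, LinearMap.id_apply] at h1
    have h2 : (1 - c 1) • v = 0 := by rw [sub_smul, one_smul, ← h1, sub_self]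
    rcases smul_eq_zero.mp h2 with h | h
    · exact (sub_eq_zero.mp h).symm
    · exact absurd h hv
  have hcm : ∀ x y, c (x * y) = c x * c y := by
    intro x y
    have h1 := congrArg (fun R : V →ₗ[ℂ] V => R v) (hc (x * y))
    simp only [map_mul, Module.End.mul_apply, LinearMap.smul_apply, LinearMap.id_apply] at h1
    rw [hc x, hc y] at h1
    simp only [LinearMap.smul_apply, LinearMap.id_apply, smul_smul] at h1
    have h2 : (c x * c y - c (x * y)) • v = 0 := by rw [sub_smul, h1, sub_self]
    rcases smul_eq_zero.mp h2 with h | h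
    · exact (sub_eq_zero.mp h).symm
    · exact absurd h hv
  have hone : IsIrrChar rho.character := ⟨V, inferInstance, inferInstance, inferInstance, rho, hirr, rfl⟩
  have hB := B_irr hone hone
  rw [if_pos rfl] at hB
  unfold B at hB
  have h3 : ∀ g : G, rho.character g * rho.character g⁻¹ = d ^ 2 := by
    intro g
    rw [hch, hch]
    have : c g * c g⁻¹ = 1 := by rw [← hcm, mul_inv_cancel, hc1]
    calc c g * d * (c g⁻¹ * d) = (c g * c g⁻¹) * d ^ 2 := by ring
      _ = d ^ 2 := by rw [this, one_mul]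
  rw [Finset.sum_congr rfl fun g _ => h3 g, Finset.sum_const, Finset.card_univ,
    ← Nat.card_eq_fintype_card, nsmul_eq_mul, ← mul_assoc, inv_mul_cancel₀ cardG_ne, one_mul] at hB
  have hd1 : d = 1 := by
    have h4 : ((Module.finrank ℂ V : ℕ) : ℂ) ^ 2 = 1 := hB
    have h5 : (Module.finrank ℂ V) ^ 2 = 1 := by exact_mod_cast h4
    have h6 : Module.finrank ℂ V = 1 := by
      rcases Nat.pow_eq_one.mp h5 with h | h
      · exact h
      · omega
    rw [hd, h6]
    norm_num
  constructor
  · rw [hch, hc1, hd1, one_mul]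
  · intro x y
    rw [hch, hch, hch, hcm, hd1]
    ring

/-- a multiplicative character as a homomorphism to the units -/
def toHom (chi : G → ℂ) (h1 : chi 1 = 1) (hm : ∀ x y, chi (x * y) = chi x * chi y) : G →* ℂˣ where
  toFun x := ⟨chi x, chi x⁻¹, by rw [← hm, mul_inv_cancel, h1], by rw [← hm, inv_mul_cancel, h1]⟩
  map_one' := by
    apply Units.ext
    exact h1
  map_mul' x y := by
    apply Units.ext
    exact hm x y

/-- irreducible characters of commutative groups are linear -/
lemma irr_of_comm (hG : ∀ x y : G, x * y = y * x) {chi : G → ℂ} (h : IsIrrChar chi) :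
    ∃ lam : G →* ℂˣ, ∀ x, chi x = ((lam x : ℂˣ) : ℂ) := by
  obtain ⟨V, _, _, _, rho, hirr, rfl⟩ := h
  obtain ⟨h1, h2⟩ := comm_irr rho hirr (fun x y => by rw [← map_mul, hG, map_mul])
  exact ⟨toHom rho.character h1 h2, fun x => rfl⟩

/-- linear characters are irreducible characters -/
lemma isIrrChar_hom (lam : G →* ℂˣ) : IsIrrChar (fun x : G => ((lam x : ℂˣ) : ℂ)) := by
  have hchar : (oneRep lam).character = fun x : G => ((lam x : ℂˣ) : ℂ) := funext (oneRep_char lam)
  refine ⟨ℂ, inferInstance, inferInstance, inferInstance, oneRep lam, ?_, hchar.symm⟩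
  haveI : Nontrivial (Subrepresentation (oneRep lam)) := by
    refine ⟨⟨⊥, ⊤, ?_⟩⟩
    intro h
    have h1 : (1 : ℂ) ∈ (⊤ : Subrepresentation (oneRep lam)) := by trivial
    rw [← h] at h1
    have h2 : (1 : ℂ) ∈ (⊥ : Submodule ℂ ℂ) := h1
    exact one_ne_zero ((Submodule.mem_bot ℂ).mp h2)
  constructor
  intro W
  by_cases hW : ∃ w : ℂ, w ∈ W ∧ w ≠ 0
  · right
    obtain ⟨w, hw, hw0⟩ := hW
    ext x
    constructor
    · intro _
      trivial
    · intro _
      have h1 : (x * w⁻¹) • w ∈ W := W.toSubmodule.smul_mem _ hw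
      rw [smul_eq_mul, mul_assoc, inv_mul_cancel₀ hw0, mul_one] at h1
      exact h1
  · left
    push Not at hW
    ext x
    constructor
    · intro hx
      have := hW x hx
      subst this
      simp
    · intro hx
      have h2 : x ∈ (⊥ : Submodule ℂ ℂ) := hx
      have : x = 0 := (Submodule.mem_bot ℂ).mp h2
      subst this
      exact W.toSubmodule.zero_mem

/-- characters of a group are nonnegative combinations of irreducible ones -/
lemma IsChar.expand_nat {theta : G → ℂ} (h : IsChar theta) :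
    ∃ n : (G → ℂ) → ℕ, (∀ chi ∈ Irr G, B theta chi = n chi) ∧
      ∀ g, theta g = ∑ chi ∈ Irr G, (n chi : ℂ) * chi g := by
  choose! n hn using fun chi (hchi : chi ∈ Irr G) => h.B_nat (IsChar.of_irr (mem_Irr.mp hchi))
  refine ⟨n, hn, fun g => ?_⟩
  have h1 := congrFun (expand theta h.isClass) g
  rw [h1, Finset.sum_apply]
  refine Finset.sum_congr rfl fun chi hchi => ?_
  rw [Pi.smul_apply, smul_eq_mul, hn chi hchi]

/-- the value at the inverse is the complex conjugate -/
lemma IsChar.inv_conj {theta : G → ℂ} (h : IsChar theta) (g : G) :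
    theta g⁻¹ = (starRingEnd ℂ) (theta g) := by
  set Z := Subgroup.zpowers g with hZ
  have hcomm : ∀ x y : Z, x * y = y * x := by
    intro x y
    have := (Subgroup.zpowers_isMulCommutative g).is_comm.comm x y
    exact this
  have hr : IsChar (fun x : Z => theta (Z.subtype x)) := h.comp Z.subtype
  obtain ⟨n, _, h2⟩ := hr.expand_nat
  set z : Z := ⟨g, Subgroup.mem_zpowers g⟩ with hz
  have e1 : theta g = ∑ chi ∈ Irr Z, (n chi : ℂ) * chi z := h2 z
  have e2 : theta g⁻¹ = ∑ chi ∈ Irr Z, (n chi : ℂ) * chi z⁻¹ := h2 z⁻¹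
  rw [e1, e2, map_sum]
  refine Finset.sum_congr rfl fun chi hchi => ?_
  rw [map_mul]
  congr 1
  · simp
  · obtain ⟨lam, hlam⟩ := irr_of_comm hcomm (mem_Irr.mp hchi)
    rw [hlam, hlam, map_inv, Units.val_inv_eq_inv_val]
    have hpow : ((lam z : ℂˣ) : ℂ) ^ (orderOf z) = 1 := by
      rw [← Units.val_pow_eq_pow_val, ← map_pow, pow_orderOf_eq_one, map_one, Units.val_one]
    have hnorm : ‖((lam z : ℂˣ) : ℂ)‖ = 1 :=
      Complex.norm_eq_one_of_pow_eq_one hpow (orderOf_pos z).ne'
    rw [Complex.inv_def, Complex.normSq_eq_norm_sq, hnorm]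
    simp

lemma IsChar.mul_inv_eq {theta : G → ℂ} (h : IsChar theta) (g : G) :
    theta g * theta g⁻¹ = ((‖theta g‖ ^ 2 : ℝ) : ℂ) := by
  rw [h.inv_conj, Complex.mul_conj, Complex.normSq_eq_norm_sq]

/-- sum of squared absolute values of an irreducible character -/
lemma sum_norm_sq {chi : G → ℂ} (h : IsIrrChar chi) : ∑ g : G, ‖chi g‖ ^ 2 = Nat.card G := by
  have h1 := B_irr h h
  rw [if_pos rfl] at h1
  unfold B at h1
  have h2 : (∑ g : G, chi g * chi g⁻¹) = (Nat.card G : ℂ) := by
    have h3 := cardG_ne (G := G)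
    field_simp at h1
    exact h1
  have h3 : ((∑ g : G, ‖chi g‖ ^ 2 : ℝ) : ℂ) = ((Nat.card G : ℝ) : ℂ) := by
    rw [Complex.ofReal_sum]
    rw [← Finset.sum_congr rfl fun g _ => (IsChar.of_irr h).mul_inv_eq g]
    rw [h2]
    simp
  exact_mod_cast h3

/-- degree bound from a commutative subgroup -/
lemma deg_le_index (A : Subgroup G) (hA : ∀ x y : A, x * y = y * x) {mu : G → ℂ}
    (h : IsIrrChar mu) : ∃ n : ℕ, mu 1 = n ∧ n * Nat.card A ≤ Nat.card G := by
  obtain ⟨d, hd, hd1⟩ := Pool.Agent.Y63.AWC.deg_nat h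
  refine ⟨d, hd1, ?_⟩
  have hr : IsChar (fun x : A => mu (A.subtype x)) := (IsChar.of_irr h).comp A.subtype
  obtain ⟨n, hn, h2⟩ := hr.expand_nat
  have h3 : ∃ psi ∈ Irr A, n psi ≠ 0 := by
    by_contra hno
    push Not at hno
    have h4 := h2 1
    rw [Finset.sum_eq_zero (fun psi hpsi => by rw [hno psi hpsi]; simp)] at h4
    have h5 : mu 1 = 0 := h4
    exact Pool.Agent.Y63.AWC.one_ne h h5
  obtain ⟨psi, hpsi, hne⟩ := h3
  obtain ⟨lam, hlam⟩ := irr_of_comm hA (mem_Irr.mp hpsi)
  -- Frobenius reciprocity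
  have h4 : B (indChar A lam) mu = n psi := by
    rw [frob _ _ _ h.isClass, ← hn psi hpsi, B_comm]
    unfold B
    congr 1
    rw [sum_lamExt A lam (fun g => mu g⁻¹)]
    refine Finset.sum_congr rfl fun x _ => ?_
    rw [hlam]
    rfl
  have hnat : ∀ chi ∈ Irr G, ∃ k : ℕ, B (indChar A lam) chi = k := fun chi hchi =>
    mult_nat A lam (mem_Irr.mp hchi)
  choose! k hk using hnat
  choose! e he using fun chi (hchi : chi ∈ Irr G) => Pool.Agent.Y63.AWC.deg_nat (mem_Irr.mp hchi)
  have h5 := congrFun (expand (indChar A lam) (isClass_indChar A lam)) 1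
  have h6 : indChar A lam 1 = (Nat.card G : ℂ) / Nat.card A := by
    unfold indChar
    have : ∀ y : G, lamExt A lam (y⁻¹ * 1 * y) = 1 := by
      intro y
      have : y⁻¹ * 1 * y = 1 := by group
      rw [this]
      unfold lamExt
      rw [dif_pos A.one_mem]
      have h1 : (⟨1, A.one_mem⟩ : A) = 1 := rfl
      rw [h1, map_one, Units.val_one]
    simp only [this]
    rw [Finset.sum_const, Finset.card_univ, ← Nat.card_eq_fintype_card, nsmul_eq_mul]
    field_simp
  have h7 : indChar A lam 1 = ((∑ chi ∈ Irr G, k chi * e chi : ℕ) : ℂ) := by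
    rw [h5, Finset.sum_apply]
    push_cast
    refine Finset.sum_congr rfl fun chi hchi => ?_
    rw [Pi.smul_apply, smul_eq_mul, hk chi hchi, (he chi hchi).2]
  have h8 : (Nat.card G : ℂ) = ((∑ chi ∈ Irr G, k chi * e chi : ℕ) : ℂ) * Nat.card A := by
    rw [← h7, h6]
    have := cardC_ne A
    field_simp
  have h9 : Nat.card G = (∑ chi ∈ Irr G, k chi * e chi) * Nat.card A := by exact_mod_cast h8
  rw [h9]
  refine Nat.mul_le_mul_right _ ?_
  have hmu := mem_Irr.mpr h
  have h10 : k mu * e mu ≤ ∑ chi ∈ Irr G, k chi * e chi :=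
    Finset.single_le_sum (f := fun chi => k chi * e chi) (fun _ _ => Nat.zero_le _) hmu
  have h11 : e mu = d := by
    have := (he mu hmu).2
    rw [hd1] at this
    exact_mod_cast this.symm
  have h12 : 1 ≤ k mu := by
    have h13 := hk mu hmu
    rw [h4] at h13
    have h14 : n psi = k mu := by exact_mod_cast h13
    omega
  calc d = 1 * e mu := by rw [h11, one_mul]
    _ ≤ k mu * e mu := Nat.mul_le_mul_right _ h12
    _ ≤ _ := h10

end Pool.Agent.X256.CT
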