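import Pool.Agent.Helper884.IC.Compl
import Pool.Agent.Y63.AWC.Ch

/-!
# Characters of finite groups: multiplicities and restriction along homomorphisms
-/

open scoped BigOperators Classical
open Representation Pool.Agent.Helper884.IC

noncomputable section

namespace Pool.Agent.X256.CT

/-- `chi` is the character of some finite-dimensional complex representation. -/
def IsChar {G : Type} [Group G] (chi : G → ℂ) : Prop :=
  ∃ (V : Type) (_ : AddCommGroup V) (_ : Module ℂ V) (_ : FiniteDimensional ℂ V)
    (rho : Representation ℂ G V), chi = rho.character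

lemma IsChar.of_irr {G : Type} [Group G] {chi : G → ℂ} (h : IsIrrChar chi) : IsChar chi := by
  obtain ⟨V, i1, i2, i3, rho, _, rfl⟩ := h
  exact ⟨V, i1, i2, i3, rho, rfl⟩

lemma IsChar.comp {G H : Type} [Group G] [Group H] {chi : G → ℂ} (h : IsChar chi) (s : H →* G) :
    IsChar (fun x => chi (s x)) := by
  obtain ⟨V, i1, i2, i3, rho, rfl⟩ := h
  exact ⟨V, i1, i2, i3, rho.comp s, rfl⟩

lemma IsChar.isClass {G : Type} [Group G] [Fintype G] {chi : G → ℂ} (h : IsChar chi) :
    IsClass chi := by
  obtain ⟨V, _, _, _, rho, rfl⟩ := h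
  exact isClass_char rho

variable {G : Type} [Group G] [Fintype G]

/-- multiplicities are natural numbers -/
lemma IsChar.B_nat {theta chi : G → ℂ} (h : IsChar theta) (hchi : IsChar chi) :
    ∃ n : ℕ, B theta chi = n := by
  obtain ⟨V, _, _, _, rho, rfl⟩ := h
  obtain ⟨W, _, _, _, sigma, rfl⟩ := hchi
  haveI : Invertible (Nat.card G : ℂ) := invertibleOfNonzero cardG_ne
  have h1 := Representation.card_inv_mul_sum_char_mul_char_eq_finrank (G := G) sigma rho
  refine ⟨Module.finrank ℂ (sigma.IntertwiningMap rho), ?_⟩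
  rw [← h1]
  rfl

lemma B_sum_right {ι : Type} (s : Finset ι) (F : ι → G → ℂ) (h : G → ℂ) :
    B h (∑ i ∈ s, F i) = ∑ i ∈ s, B h (F i) := by
  rw [B_comm, B_sum_left]
  exact Finset.sum_congr rfl fun i _ => B_comm _ _

lemma B_smul_right (c : ℂ) (f h : G → ℂ) : B f (c • h) = c * B f h := by
  rw [B_comm, B_smul_left, B_comm]

/-- a function with integral inner products with the irreducible characters has integral inner
products with all characters -/
lemma B_int_of_irr {f : G → ℂ} (hf : ∀ chi, IsIrrChar chi → ∃ n : ℤ, B f chi = n)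
    {theta : G → ℂ} (h : IsChar theta) : ∃ n : ℤ, B f theta = n := by
  rw [expand theta h.isClass, B_sum_right]
  choose! m hm using fun chi (hchi : chi ∈ Irr G) => h.B_nat (IsChar.of_irr (mem_Irr.mp hchi))
  choose! k hk using fun chi (hchi : chi ∈ Irr G) => hf chi (mem_Irr.mp hchi)
  refine ⟨∑ chi ∈ Irr G, (m chi : ℤ) * k chi, ?_⟩
  push_cast
  refine Finset.sum_congr rfl fun chi hchi => ?_
  rw [B_smul_right, hm chi hchi, hk chi hchi]

end Pool.Agent.X256.CT
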